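import Pool.Agent.H208.Tree.Main
import Pool.Agent.H208.CM.Final

set_option autoImplicit false

/-!
# Invariant trees of iterates of expanding Thurston maps

For every expanding Thurston map `f` and all sufficiently large `n` there is a tree `T` which
contains the postcritical points of `f` and satisfies `f^n(T) ⊆ T`.
-/

noncomputable section

namespace Pool.Agent.Results.MP_cb5d8b_an.InvariantTreesOfIterates

open Set OnePoint Pool.Agent.H208.Thu Pool.Agent.H208.Tree unitInterval

/-- `A` is an arc in the sphere with end points `a` and `b`. -/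
def IsArc (A : Set Sph) (a b : Sph) : Prop :=
  ∃ γ : unitInterval → Sph, Continuous γ ∧ Function.Injective γ ∧ range γ = A ∧ γ 0 = a ∧ γ 1 = b

/-- A graph: a connected set that is a finite union of arcs, any two of which meet at most in
common end points. -/
def IsGraph (G : Set Sph) : Prop :=
  IsConnected G ∧ ∃ (n : ℕ) (A : Fin n → Set Sph) (a b : Fin n → Sph),
    (∀ i, IsArc (A i) (a i) (b i)) ∧ G = ⋃ i, A i ∧
    ∀ i j, i ≠ j → A i ∩ A j ⊆ {a i, b i} ∩ {a j, b j}

/-- A tree: a graph whose complement in the sphere is connected. -/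
def IsTree (T : Set Sph) : Prop := IsGraph T ∧ IsConnected Tᶜ

theorem isTree_range {n : ℕ} (hn : 1 ≤ n) {φ : comb n → Sph} (hφ : Continuous φ)
    (hi : Function.Injective φ) : IsTree (range φ) := by
  set q := (Fintype.equivFin (Ed n)).symm with hq
  have hmem : ∀ (e : Ed n) (s : unitInterval), ep e s ∈ comb n := fun e s => ep_mem e s.2.1 s.2.2
  set γ : Fin (Fintype.card (Ed n)) → unitInterval → Sph := fun i s => φ ⟨ep (q i) s, hmem _ s⟩
    with hγ
  have hγc : ∀ i, Continuous (γ i) := fun i =>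
    hφ.comp (Continuous.subtype_mk ((continuous_ep _).comp continuous_subtype_val) _)
  have hγi : ∀ i, Function.Injective (γ i) := by
    intro i s t hst
    exact Subtype.ext (ep_inj (congrArg Subtype.val (hi hst)))
  have hU : range φ = ⋃ i, range (γ i) := by
    ext y
    constructor
    · rintro ⟨z, rfl⟩
      obtain ⟨e, s, h0, h1, hes⟩ := exists_ep hn z.2
      refine mem_iUnion.2 ⟨q.symm e, ⟨s, h0, h1⟩, ?_⟩
      simp only [hγ]
      congr 1
      apply Subtype.ext
      simp only [Equiv.apply_symm_apply]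
      exact hes
    · intro hy
      obtain ⟨i, s, rfl⟩ := mem_iUnion.1 hy
      exact ⟨_, rfl⟩
  have hend : ∀ i (s : unitInterval), ((s : ℝ) = 0 ∨ (s : ℝ) = 1) → γ i s ∈ ({γ i 0, γ i 1} : Set Sph) := by
    intro i s hs
    rcases hs with h | h
    · left
      rw [show s = 0 from Subtype.ext h]
    · right
      rw [show s = 1 from Subtype.ext h]
      rfl
  refine ⟨⟨connected_comb hn hφ, Fintype.card (Ed n), fun i => range (γ i), fun i => γ i 0,
    fun i => γ i 1, fun i => ⟨γ i, hγc i, hγi i, rfl, rfl, rfl⟩, hU, ?_⟩, ?_, compl_comb hn hφ hi⟩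
  · rintro i j hij y ⟨⟨s, rfl⟩, ⟨t, ht⟩⟩
    have hne' : q i ≠ q j := fun h => hij (q.injective h)
    have h1 : ep (q j) t = ep (q i) s := congrArg Subtype.val (hi ht)
    have hs : (s : ℝ) = 0 ∨ (s : ℝ) = 1 := by
      by_contra hcon
      rw [not_or] at hcon
      exact hne' (ep_unique (lt_of_le_of_ne s.2.1 (Ne.symm hcon.1))
        (lt_of_le_of_ne s.2.2 hcon.2) t.2.1 t.2.2 h1.symm).1
    have ht' : (t : ℝ) = 0 ∨ (t : ℝ) = 1 := by
      by_contra hcon
      rw [not_or] at hcon
      exact hne' (ep_unique (lt_of_le_of_ne t.2.1 (Ne.symm hcon.1))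
        (lt_of_le_of_ne t.2.2 hcon.2) s.2.1 s.2.2 h1).1.symm
    refine ⟨hend i s hs, ?_⟩
    rw [← ht]
    exact hend j t ht'
  · rw [nonempty_compl, hU]
    exact Pool.Agent.H208.CM.arcs_ne_univ γ hγc hγi

/-- For every expanding Thurston map `f` there is an `n₀ ≥ 1` such that for every `n ≥ n₀` there is
a tree `T` in the sphere which contains all postcritical points of `f` and satisfies
`f^n(T) ⊆ T`. -/
theorem result (f : Sph → Sph) (hf : IsThurston f) (he : IsExpanding f) :
    ∃ n₀ : ℕ, 1 ≤ n₀ ∧ ∀ n ≥ n₀, ∃ T : Set Sph, IsTree T ∧ post f ⊆ T ∧ f^[n] '' T ⊆ T := by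
  obtain ⟨C, ⟨γ, hγ, hi, rfl⟩, hPC, hmesh⟩ := he
  have hB := IsThurston.brc hf
  obtain ⟨δ, hδ, hE⟩ := exists_expand hB hγ hi hPC hmesh
  obtain ⟨h, m, hm, hP⟩ := exists_norm hB.fin (hB.two_le hf.2.1)
  have hB' := hB.conj h
  have hPm : h '' post f = P0 m := hP
  rw [hPm] at hB'
  obtain ⟨δ', hδ', hE'⟩ := hE.conj hδ h
  obtain ⟨N, hN⟩ := exists_comb hm hB' hδ' hE'
  have hit : ∀ n x, (fun x => h (f (h.symm x)))^[n] x = h (f^[n] (h.symm x)) := by
    intro n
    induction n with
    | zero => intro x; simp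
    | succ n ih =>
      intro x
      rw [Function.iterate_succ_apply', ih, Function.iterate_succ_apply', h.symm_apply_apply]
  refine ⟨max N 1, le_max_right _ _, fun n hn => ?_⟩
  obtain ⟨φ, h1, h2, h3, h4⟩ := hN n ((le_max_left _ _).trans hn)
  have hψ : Continuous fun z => h.symm (φ z) := h.symm.continuous.comp h1
  have hψi : Function.Injective fun z => h.symm (φ z) := h.symm.injective.comp h2
  refine ⟨range fun z => h.symm (φ z), isTree_range hm hψ hψi, ?_, ?_⟩
  · intro x hx
    have hx' : h x ∈ P0 m := by rw [← hPm]; exact ⟨x, hx, rfl⟩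
    obtain ⟨k, hk, hkx⟩ := hx'
    have htip : (k : ℂ) + Complex.I ∈ tips m := ⟨k, hk, rfl⟩
    refine ⟨⟨_, tips_sub_comb m htip⟩, ?_⟩
    simp only []
    rw [h3 _ htip, ← hkx, h.symm_apply_apply]
  · rintro _ ⟨_, ⟨z, rfl⟩, rfl⟩
    obtain ⟨w, hw⟩ := h4 z
    rw [hit] at hw
    refine ⟨w, ?_⟩
    simp only []
    rw [← hw, h.symm_apply_apply]

end Pool.Agent.Results.MP_cb5d8b_an.InvariantTreesOfIterates
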