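import Pool.Agent.H208.CM.Final

set_option autoImplicit false

/-!
# An expanding Thurston map without an invariant tree

The Lattès map `f z = (z - 1)² / (c² z)` with `c² = c - 2` (that is `c = (1 ± i √7) / 2`) is an
expanding Thurston map and no tree which contains its postcritical points is invariant under `f`.
-/

noncomputable section

namespace Pool.Agent.Results.MP_cb5d8b_an.LattesNoInvariantTree

open Set OnePoint Pool.Agent.H208.Thu

/-- `A` is an arc in the sphere with end points `a` and `b`. -/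
def IsArc (A : Set Sph) (a b : Sph) : Prop :=
  ∃ γ : unitInterval → Sph, Continuous γ ∧ Function.Injective γ ∧ range γ = A ∧ γ 0 = a ∧ γ 1 = b

/-- A graph: a connected set that is a finite union of arcs, any two of which meet at most in
common end points. -/
def IsGraph (G : Set Sph) : Prop :=
  IsConnected G ∧ ∃ (n : ℕ) (A : Fin n → Set Sph) (a b : Fin n → Sph),
    (∀ i, IsArc (A i) (a i) (b i)) ∧ G = ⋃ i, A i ∧
    ∀ i j, i ≠ j → A i ∩ A j ⊆ {a i, b i} ∩ {a j, b j}

/-- A tree: a graph whose complement in the sphere is connected. -/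
def IsTree (T : Set Sph) : Prop := IsGraph T ∧ IsPreconnected Tᶜ

theorem IsTree.facts {T : Set Sph} (h : IsTree T) :
    IsClosed T ∧ IsPreconnected T ∧ IsPreconnected Tᶜ ∧ Tᶜ.Nonempty := by
  obtain ⟨⟨hc, n, A, a, b, hA, hT, -⟩, hcc⟩ := h
  choose γ h1 h2 h3 h4 h5 using hA
  have hT' : T = ⋃ i, range (γ i) := by
    rw [hT]
    exact iUnion_congr fun i => (h3 i).symm
  refine ⟨?_, hc.isPreconnected, hcc, ?_⟩
  · rw [hT']
    exact isClosed_iUnion_of_finite fun i => (isCompact_range (h1 i)).isClosed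
  · rw [nonempty_compl, hT']
    exact Pool.Agent.H208.CM.arcs_ne_univ γ h1 h2

/-- There is an expanding Thurston map `f`, namely `f z = (z - 1)² / (c² z)` with `c² = c - 2`,
such that no tree containing the postcritical points of `f` is invariant under `f`; indeed no
proper closed connected subset of the sphere with connected complement which contains the
postcritical points is invariant. -/
theorem result : ∃ (f : Sph → Sph) (c : ℂ), c ^ 2 = c - 2 ∧ f ∞ = ∞ ∧ f ((0 : ℂ) : Sph) = ∞ ∧
    (∀ z : ℂ, z ≠ 0 → f (z : Sph) = (((z - 1) ^ 2 / (c ^ 2 * z) : ℂ) : Sph)) ∧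
    IsThurston f ∧ IsExpanding f ∧
    (∀ T : Set Sph, IsTree T → post f ⊆ T → ¬ f '' T ⊆ T) ∧
    (∀ T : Set Sph, IsClosed T → IsConnected T → IsConnected Tᶜ → post f ⊆ T → ¬ f '' T ⊆ T) := by
  refine ⟨Pool.Agent.H208.CM.F, Pool.Agent.H208.CM.lam, Pool.Agent.H208.CM.lam_sq, Pool.Agent.H208.CM.F_infty, Pool.Agent.H208.CM.F_zero, fun z hz => Pool.Agent.H208.CM.F_coe hz,
    Pool.Agent.H208.CM.F_thurston, Pool.Agent.H208.CM.F_expanding, ?_, ?_⟩
  · intro T hT hp hf
    obtain ⟨h1, h2, h3, h4⟩ := hT.facts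
    exact Pool.Agent.H208.CM.no_continuum h1 h2 h3 h4 hp hf
  · intro T h1 h2 h3 hp hf
    exact Pool.Agent.H208.CM.no_continuum h1 h2.isPreconnected h3.isPreconnected h3.nonempty hp hf

end Pool.Agent.Results.MP_cb5d8b_an.LattesNoInvariantTree
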